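import Pool.Agent.H21.BS.TB

set_option autoImplicit false

open Finset Pool.Agent.H6.N4D

namespace Pool.Agent.H5.BS

open Pool.Agent.H21.BS

theorem pf_OM3 (hLVL : T_LVL) (hFIP : T_FIP) : T_OM3 := by
  intro W
  obtain ⟨C, hC0, hC⟩ := hFIP W
  refine ⟨C, hC0, ?_⟩
  intro S c R F hS hc hF i hi1 hiK
  obtain ⟨l1, l2, l3, l4, l5⟩ := hLVL S W hS
  obtain ⟨hN, _, hcN, hL, hsum⟩ := l1 i hiK
  obtain ⟨T, hT1, hT2⟩ := l2 0 i (Nat.zero_le _) hiK
  obtain ⟨hks, hsP⟩ := l3 0 i hi1 hiK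
  have hs0 : 1 ≤ S.s 0 := hS.s1 0 (Nat.zero_le _)
  have hLr : (0 : ℝ) < (S.L : ℝ) := by exact_mod_cast hL
  unfold av
  rw [norm_div, Complex.norm_natCast, div_le_iff₀ hLr,
    hsum fun n => F n * (starRingEnd ℂ) (S.Om c i n)]
  show ‖∑ k ∈ range (S.cnt i), ∑ x ∈ range (S.N i),
    F (S.U + k * S.N i + x) * starRingEnd ℂ (S.Om c i (S.U + k * S.N i + x))‖ ≤ _
  -- one cell
  have hcell : ∀ k ∈ range (S.cnt i), ‖∑ x ∈ range (S.N i),
      F (S.U + k * S.N i + x) * starRingEnd ℂ (S.Om c i (S.U + k * S.N i + x))‖ ≤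
      C * R * (S.N i : ℝ) * (S.s 0 : ℝ) ^ (-(1 / 5) : ℝ) := by
    intro k hk
    have hk' := mem_range.1 hk
    have hV := l4 i hi1 hiK k hk' (c i k) (fun q => hc i k q)
    have h1 := hC (S.P i) (S.κ i) (S.V i k (c i k)) (S.s 0) T R F hV hs0 hsP hks hT1 ?_
    · have e : ∑ x ∈ range (S.N i),
          F (S.U + k * S.N i + x) * starRingEnd ℂ (S.Om c i (S.U + k * S.N i + x)) =
          ∑ x ∈ range (S.V i k (c i k)).N, F ((S.V i k (c i k)).a + x) *
            starRingEnd ℂ ((S.V i k (c i k)).om ((S.V i k (c i k)).a + x)) := by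
        apply Finset.sum_congr rfl
        intro x hx
        rw [l5 c i k x hiK hk' (mem_range.1 hx)]
        rfl
      rw [e]
      exact h1
    · intro t ht
      have hlt : k * T + t < S.cnt 0 := by
        rw [hT2]
        calc k * T + t < k * T + T := by omega
          _ = (k + 1) * T := by ring
          _ ≤ S.cnt i * T := Nat.mul_le_mul_right _ hk'
      obtain ⟨b, β, hb, hbx⟩ := hF (k * T + t) hlt
      refine ⟨b, β, hb, ?_⟩
      intro x hx
      have e : (S.V i k (c i k)).a + t * S.s 0 ^ 2 + x = S.U + (k * T + t) * S.N 0 + x := by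
        show S.U + k * S.N i + t * S.s 0 ^ 2 + x = S.U + (k * T + t) * S.N 0 + x
        have e0 : S.N 0 = S.s 0 ^ 2 := rfl
        rw [hT1, e0]
        ring
      rw [e]
      exact hbx x hx
  calc ‖∑ k ∈ range (S.cnt i), ∑ x ∈ range (S.N i),
        F (S.U + k * S.N i + x) * starRingEnd ℂ (S.Om c i (S.U + k * S.N i + x))‖
      ≤ ∑ k ∈ range (S.cnt i), C * R * (S.N i : ℝ) * (S.s 0 : ℝ) ^ (-(1 / 5) : ℝ) :=
        norm_sum_le_of_le _ hcell
    _ = C * R * (S.s 0 : ℝ) ^ (-(1 / 5) : ℝ) * ((S.cnt i * S.N i : ℕ) : ℝ) := by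
        rw [Finset.sum_const, card_range, nsmul_eq_mul]
        push_cast
        ring
    _ = C * R * (S.s 0 : ℝ) ^ (-(1 / 5) : ℝ) * (S.L : ℝ) := by rw [hcN]

end Pool.Agent.H5.BS
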